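import Pool.Agent.L7h52.NQ.Stm

/-! Project NQ, part TUBE: the solution of the equation of the tube, to any order. -/

namespace Pool.Agent.L7h36.NQ

open MvPolynomial Pool.Agent.L7h52.NQ

section
variable {F : Type} [Field F]

theorem sub_C_mem (f : MvPolynomial (Fin 2) F) : f - C (constantCoeff f) ∈ mI F := by
  induction f using MvPolynomial.induction_on with
  | C a => simp
  | add p q hp hq =>
    have : p + q - C (constantCoeff (p + q)) =
        (p - C (constantCoeff p)) + (q - C (constantCoeff q)) := by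
      rw [map_add, C_add]
      ring
    rw [this]
    exact (mI F).add_mem hp hq
  | mul_X p i hp =>
    have : p * X i - C (constantCoeff (p * X i)) = p * X i := by simp
    rw [this]
    refine (mI F).mul_mem_left _ ?_
    unfold mI
    apply Ideal.subset_span
    fin_cases i
    · simp
    · simp

theorem mem_mI_of {f : MvPolynomial (Fin 2) F} (h : constantCoeff f = 0) : f ∈ mI F := by
  have := sub_C_mem f
  rwa [h, C_0, sub_zero] at this

theorem cc_of_mem {f : MvPolynomial (Fin 2) F} (h : f ∈ mI F) : constantCoeff f = 0 := by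
  have : mI F ≤ RingHom.ker (constantCoeff (σ := Fin 2) (R := F)) := by
    unfold mI
    rw [Ideal.span_le]
    rintro x hx
    simp only [Set.mem_insert_iff, Set.mem_singleton_iff] at hx
    rcases hx with rfl | rfl
    · simp [RingHom.mem_ker]
    · simp [RingHom.mem_ker]
  exact this h

theorem nN_sub {S : Type*} [CommRing S] (x a b : S) : a - b ∣ nN x a - nN x b := by
  have := Polynomial.sub_dvd_eval_sub a b (nN (Polynomial.C x) Polynomial.X)
  simpa [nN] using this

theorem dD_sub {S : Type*} [CommRing S] (x a b : S) : a - b ∣ dD x a - dD x b := by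
  have := Polynomial.sub_dvd_eval_sub a b (dD (Polynomial.C x) Polynomial.X)
  simpa [dD] using this

/-- the equation divided by `y` -/
noncomputable def eq1 (v : MvPolynomial (Fin 2) F) : MvPolynomial (Fin 2) F :=
  16 * v * nN (X 0) (X 1 * v) - dD (X 0) (X 1 * v) ^ 2

theorem eq1_cc (v : MvPolynomial (Fin 2) F) : constantCoeff (eq1 v) = 576 * constantCoeff v - 81 := by
  have h := fun n : ℕ => map_natCast (constantCoeff (σ := Fin 2) (R := F)) n
  have h16 := h 16
  have h4 := h 4
  have h3 := h 3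
  have h2 := h 2
  push_cast at h16 h4 h3 h2
  simp [eq1, nN, dD, h16, h4, h3, h2]
  ring

theorem step [CharZero F] (n : ℕ) (v : MvPolynomial (Fin 2) F) (hv : eq1 v ∈ mI F ^ n) :
    eq1 (v - C (576⁻¹ : F) * eq1 v) ∈ mI F ^ (n + 1) := by
  obtain ⟨h, hh⟩ : ∃ h, h = -(C (576⁻¹ : F) * eq1 v) := ⟨_, rfl⟩
  have e0 : v - C (576⁻¹ : F) * eq1 v = v + h := by rw [hh]; ring
  rw [e0]
  have hm : h ∈ mI F ^ n := by
    rw [hh]
    exact Ideal.neg_mem_iff _ |>.2 (Ideal.mul_mem_left _ _ hv)
  have h576 : (576 : MvPolynomial (Fin 2) F) * h = - eq1 v := by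
    have h1 : (576 : MvPolynomial (Fin 2) F) * C (576⁻¹ : F) = 1 := by
      have : (576 : MvPolynomial (Fin 2) F) = C 576 := by simp only [map_ofNat]
      rw [this, ← C_mul, mul_inv_cancel₀ (by norm_num), C_1]
    rw [hh]
    linear_combination (- eq1 v) * h1
  have hX : (X 1 : MvPolynomial (Fin 2) F) ∈ mI F := mem_mI_of (by simp)
  have hXh : X 1 * h ∈ mI F ^ (n + 1) := by
    rw [pow_succ', ]
    exact Ideal.mul_mem_mul hX hm
  obtain ⟨a, ha⟩ := nN_sub (X 0 : MvPolynomial (Fin 2) F) (X 1 * (v + h)) (X 1 * v)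
  obtain ⟨b, hb⟩ := dD_sub (X 0 : MvPolynomial (Fin 2) F) (X 1 * (v + h)) (X 1 * v)
  have hn : nN (X 0) (X 1 * (v + h)) - 36 ∈ mI F := by
    apply mem_mI_of
    have h := fun n : ℕ => map_natCast (constantCoeff (σ := Fin 2) (R := F)) n
    have h36 := h 36
    have h4 := h 4
    have h3 := h 3
    have h2 := h 2
    push_cast at h36 h4 h3 h2
    simp [nN, h36, h4, h3, h2]
    ring
  have hn2 : (nN (X 0) (X 1 * (v + h)) - 36) * h ∈ mI F ^ (n + 1) := by
    rw [pow_succ']
    exact Ideal.mul_mem_mul hn hm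
  have key : eq1 (v + h) = 16 * ((nN (X 0) (X 1 * (v + h)) - 36) * h) +
      (16 * v * a - b * (dD (X 0) (X 1 * (v + h)) + dD (X 0) (X 1 * v))) * (X 1 * h) := by
    unfold eq1
    unfold eq1 at h576
    linear_combination h576 + 16 * v * ha - (dD (X 0) (X 1 * (v + h)) + dD (X 0) (X 1 * v)) * hb
  rw [key]
  exact Ideal.add_mem _ (Ideal.mul_mem_left _ _ hn2) (Ideal.mul_mem_left _ _ hXh)

theorem sol1 [CharZero F] (n : ℕ) : ∃ v : MvPolynomial (Fin 2) F, constantCoeff v = 9 / 64 ∧
    eq1 v ∈ mI F ^ (n + 1) := by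
  induction n with
  | zero =>
    refine ⟨C (9 / 64), by simp, ?_⟩
    rw [zero_add, pow_one]
    apply mem_mI_of
    rw [eq1_cc]
    simp
    norm_num
  | succ n ih =>
    obtain ⟨v, h1, h2⟩ := ih
    refine ⟨v - C (576⁻¹ : F) * eq1 v, ?_, step _ v h2⟩
    have h3 : constantCoeff (eq1 v) = 0 := by
      rw [eq1_cc, h1]
      norm_num
    rw [map_sub, map_mul, h3, mul_zero, sub_zero, h1]

end

theorem s_TUBE : S_TUBE := by
  intro F _ _ n
  obtain ⟨v, h1, h2⟩ := sol1 (F := F) n
  refine ⟨v, ?_, ?_⟩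
  · rw [h1]
    norm_num
  · have e : 16 * (X 1 * v) * nN (X 0) (X 1 * v) - X 1 * dD (X 0) (X 1 * v) ^ 2 = X 1 * eq1 v := by
      unfold eq1
      ring
    rw [e]
    exact Ideal.mul_mem_left _ _ (Ideal.pow_le_pow_right (Nat.le_succ n) h2)

end Pool.Agent.L7h36.NQ
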